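import Pool.Agent.W438.CY.Stm

set_option autoImplicit false

namespace Pool.Agent.W309.CY

open Pool.Agent.W438.CY Function

theorem I_true {p : Prop} (h : p) : I p = 1 := by unfold I; simp [h]
theorem I_false {p : Prop} (h : ¬ p) : I p = 0 := by unfold I; simp [h]
theorem I_congr {p q : Prop} (h : p ↔ q) : I p = I q := by rw [propext h]
theorem I_and (p q : Prop) : I (p ∧ q) = I p * I q := by
  by_cases hp : p <;> by_cases hq : q <;> simp [I, hp, hq]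
theorem I_abs (p : Prop) : |I p| ≤ 1 := by by_cases hp : p <;> simp [I, hp]
theorem I_not (p : Prop) : I (¬ p) = 1 - I p := by by_cases hp : p <;> simp [I, hp]

def Bdd {α : Type*} (F : α → ℝ) : Prop := ∃ K, ∀ p, |F p| ≤ K

theorem bdd_I {α : Type*} (P : α → Prop) : Bdd (fun p => I (P p)) := ⟨1, fun _ => I_abs _⟩

theorem bdd_add {α : Type*} {F G : α → ℝ} (hF : Bdd F) (hG : Bdd G) : Bdd (fun p => F p + G p) := by
  obtain ⟨K, hK⟩ := hF
  obtain ⟨L, hL⟩ := hG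
  exact ⟨K + L, fun p => (abs_add_le _ _).trans (add_le_add (hK p) (hL p))⟩

theorem bdd_mul {α : Type*} {F G : α → ℝ} (hF : Bdd F) (hG : Bdd G) : Bdd (fun p => F p * G p) := by
  obtain ⟨K, hK⟩ := hF
  obtain ⟨L, hL⟩ := hG
  refine ⟨K * L, fun p => ?_⟩
  rw [abs_mul]
  exact mul_le_mul (hK p) (hL p) (abs_nonneg _) ((abs_nonneg _).trans (hK p))

theorem bdd_cmul {α : Type*} {F : α → ℝ} (c : ℝ) (hF : Bdd F) : Bdd (fun p => c * F p) := by
  obtain ⟨K, hK⟩ := hF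
  refine ⟨|c| * K, fun p => ?_⟩
  rw [abs_mul]
  exact mul_le_mul_of_nonneg_left (hK p) (abs_nonneg _)

theorem bdd_sum {α ι : Type*} (s : Finset ι) {F : ι → α → ℝ} (hF : ∀ j, Bdd (F j)) :
    Bdd (fun p => ∑ j ∈ s, F j p) := by
  choose K hK using hF
  exact ⟨∑ j ∈ s, K j, fun p => (Finset.abs_sum_le_sum_abs _ _).trans
    (Finset.sum_le_sum fun j _ => hK j p)⟩

section SSlem

variable {m : ℕ} {t : ℝ}

theorem SS_congr {F G : (Fin m → ℕ) × ℕ → ℝ} (h : ∀ p, F p = G p) : SS t F = SS t G := by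
  rw [show F = G from funext h]

theorem SS_mul (c : ℝ) (F : (Fin m → ℕ) × ℕ → ℝ) : SS t (fun p => c * F p) = c * SS t F := by
  unfold SS
  rw [← tsum_mul_left]
  congr 1
  ext p
  ring

variable (hs : ∀ F : (Fin m → ℕ) × ℕ → ℝ, (∃ K, ∀ p, |F p| ≤ K) →
    Summable (fun p : (Fin m → ℕ) × ℕ => t ^ (∑ l, p.1 l + p.2) * F p))

include hs

theorem SS_add {F G : (Fin m → ℕ) × ℕ → ℝ} (hF : Bdd F) (hG : Bdd G) :
    SS t (fun p => F p + G p) = SS t F + SS t G := by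
  unfold SS
  rw [← (hs F hF).tsum_add (hs G hG)]
  congr 1
  ext p
  ring

theorem SS_sum {ι : Type*} (s : Finset ι) {F : ι → (Fin m → ℕ) × ℕ → ℝ} (hF : ∀ j, Bdd (F j)) :
    SS t (fun p => ∑ j ∈ s, F j p) = ∑ j ∈ s, SS t (F j) := by
  unfold SS
  rw [← Summable.tsum_finsetSum (fun j _ => hs (F j) (hF j))]
  congr 1
  ext p
  rw [Finset.mul_sum]

end SSlem

/-- sum over the colours -/
theorem sum_colour {m : ℕ} {C : Type} [Fintype C] (x : Fin m → C) (w : C → Prop)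
    (P : Fin m → Prop) :
    ∑ c, I (w c) * ∑ j, I (P j ∧ x j = c) = ∑ j, I (P j ∧ w (x j)) := by
  simp_rw [Finset.mul_sum]
  rw [Finset.sum_comm]
  refine Finset.sum_congr rfl fun j _ => ?_
  rw [Finset.sum_eq_single (x j)]
  · rw [← I_and]
    exact I_congr ⟨fun h => ⟨h.2.1, h.1⟩, fun h => ⟨h.2, h.1, rfl⟩⟩
  · intro c _ hc
    rw [I_false (p := P j ∧ x j = c) (fun h => hc h.2.symm), mul_zero]
  · intro h
    exact absurd (Finset.mem_univ _) h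

/-- the pointwise identity -/
theorem ptw (hCNT : S_CNT) (hINI : S_INI) {m : ℕ} {C : Type} [Fintype C] (x : Fin m → C)
    (wa : C → Prop) (g : Fin m → ℕ) (β : ℕ) (hPr : Pr x g β) (hBd : ¬ Bd g β)
    (hK : Kc x wa g β) :
    (Fintype.card C : ℝ) = ∑ c, I (Al x g β c ∧ (β = 0 → ¬ wa c)) + 1 + I (∃ l, g l < β)
      + (∑ c, I (wa c)) * I (β = 0)
      + ∑ j, I (Lf g β j ∧ β < g j ∧ NewL x g β j ∧ (β = 0 → ¬ wa (x j)))
      + ∑ j, I (Rt g β j ∧ β ≤ g j ∧ NewR x g β j ∧ (β = 0 → ¬ wa (x j))) := by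
  obtain ⟨h1, h2, h3, h4⟩ := hINI m C x g β
  rw [I_true hBd] at h1
  -- total
  have e0 : ∑ c : C, I (β = 0 → ¬ wa c) = (Fintype.card C : ℝ) - (∑ c, I (wa c)) * I (β = 0) := by
    have : ∀ c : C, I (β = 0 → ¬ wa c) = 1 - I (wa c) * I (β = 0) := by
      intro c
      by_cases hb : β = 0 <;> by_cases hw : wa c <;> simp [I, hb, hw]
    rw [Finset.sum_congr rfl fun c _ => this c, Finset.sum_sub_distrib, ← Finset.sum_mul]
    simp
  have e1 : ∑ c : C, I (β = 0 → ¬ wa c) =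
      ∑ c : C, I (Al x g β c ∧ (β = 0 → ¬ wa c))
      + ∑ j, I ((Lf g β j ∧ NewL x g β j) ∧ (β = 0 → ¬ wa (x j)))
      + ∑ j, I ((Rt g β j ∧ NewR x g β j) ∧ (β = 0 → ¬ wa (x j))) := by
    have hL := sum_colour x (fun c => β = 0 → ¬ wa c) (fun j => Lf g β j ∧ NewL x g β j)
    have hR := sum_colour x (fun c => β = 0 → ¬ wa c) (fun j => Rt g β j ∧ NewR x g β j)
    rw [← hL, ← hR, ← Finset.sum_add_distrib, ← Finset.sum_add_distrib]
    refine Finset.sum_congr rfl fun c _ => ?_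
    have h := hCNT m C x g β c
    rw [I_and, mul_comm (I (Al x g β c)), ← mul_add, ← mul_add]
    have h' : I (Al x g β c) + ∑ j, I ((Lf g β j ∧ NewL x g β j) ∧ x j = c)
        + ∑ j, I ((Rt g β j ∧ NewR x g β j) ∧ x j = c) = 1 := by
      simpa only [and_assoc] using h
    rw [h', mul_one]
  have e2 : ∑ j, I ((Lf g β j ∧ NewL x g β j) ∧ (β = 0 → ¬ wa (x j)))
      = 1 + ∑ j, I (Lf g β j ∧ β < g j ∧ NewL x g β j ∧ (β = 0 → ¬ wa (x j))) := by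
    rw [← h1, ← Finset.sum_add_distrib]
    refine Finset.sum_congr rfl fun j _ => ?_
    by_cases hLj : Lf g β j
    · by_cases hj : g j ≤ β
      · rw [I_true (p := Lf g β j ∧ g j ≤ β) ⟨hLj, hj⟩,
          I_false (p := Lf g β j ∧ β < g j ∧ NewL x g β j ∧ (β = 0 → ¬ wa (x j)))
            (fun h => absurd h.2.1 (not_lt.2 hj)), add_zero]
        exact I_true ⟨⟨hLj, h3 hPr j hLj hj⟩, fun hb => hK.2 j (by omega)⟩
      · rw [I_false (p := Lf g β j ∧ g j ≤ β) (fun h => hj h.2), zero_add]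
        exact I_congr ⟨fun h => ⟨h.1.1, not_le.1 hj, h.1.2, h.2⟩, fun h => ⟨⟨h.1, h.2.2.1⟩, h.2.2.2⟩⟩
    · rw [I_false (p := Lf g β j ∧ g j ≤ β) (fun h => hLj h.1), zero_add]
      exact I_congr ⟨fun h => absurd h.1.1 hLj, fun h => absurd h.1 hLj⟩
  have e3 : ∑ j, I ((Rt g β j ∧ NewR x g β j) ∧ (β = 0 → ¬ wa (x j)))
      = I (∃ l, g l < β) + ∑ j, I (Rt g β j ∧ β ≤ g j ∧ NewR x g β j ∧ (β = 0 → ¬ wa (x j))) := by
    rw [← h2, ← Finset.sum_add_distrib]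
    refine Finset.sum_congr rfl fun j _ => ?_
    by_cases hLj : Rt g β j
    · by_cases hj : g j < β
      · rw [I_true (p := Rt g β j ∧ g j < β) ⟨hLj, hj⟩,
          I_false (p := Rt g β j ∧ β ≤ g j ∧ NewR x g β j ∧ (β = 0 → ¬ wa (x j)))
            (fun h => absurd h.2.1 (not_le.2 hj)), add_zero]
        exact I_true ⟨⟨hLj, h4 hPr j hLj hj⟩, fun hb => absurd hj (by omega)⟩
      · rw [I_false (p := Rt g β j ∧ g j < β) (fun h => hj h.2), zero_add]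
        exact I_congr ⟨fun h => ⟨h.1.1, not_lt.1 hj, h.1.2, h.2⟩, fun h => ⟨⟨h.1, h.2.2.1⟩, h.2.2.2⟩⟩
    · rw [I_false (p := Rt g β j ∧ g j < β) (fun h => hLj h.1), zero_add]
      exact I_congr ⟨fun h => absurd h.1.1 hLj, fun h => absurd h.1 hLj⟩
  rw [e2, e3] at e1
  linarith

theorem main : S_LL → S_LR → S_CNT → S_INI → S_INV → S_SUM → S_TS → S_MAIN := by
  intro hLL hLR hCNT hINI hINV hSUM hTS m C _ x wa t ht0 ht1 hq
  have hs := (hSUM m t ht0 ht1).2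
  set nw : ℝ := ∑ c, I (wa c) with hnw
  -- the functions
  let Pf : (Fin m → ℕ) × ℕ → ℝ := fun p => I (Pr x p.1 p.2 ∧ ¬ Bd p.1 p.2 ∧ Kc x wa p.1 p.2)
  let Zf : C → (Fin m → ℕ) × ℕ → ℝ := fun c p => I (Pr x p.1 p.2 ∧ ¬ Bd p.1 p.2 ∧
    Kc x wa p.1 p.2 ∧ Al x p.1 p.2 c ∧ (p.2 = 0 → ¬ wa c))
  let Rf : (Fin m → ℕ) × ℕ → ℝ := fun p => I (Pr x p.1 p.2 ∧ ¬ Bd p.1 p.2 ∧
    Kc x wa p.1 p.2 ∧ ∃ l, p.1 l < p.2)
  let Ef : (Fin m → ℕ) × ℕ → ℝ := fun p => I (Pr x p.1 p.2 ∧ ¬ Bd p.1 p.2 ∧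
    Kc x wa p.1 p.2 ∧ p.2 = 0)
  let Lj : Fin m → (Fin m → ℕ) × ℕ → ℝ := fun j p => I (Pr x p.1 p.2 ∧ ¬ Bd p.1 p.2 ∧
    Kc x wa p.1 p.2 ∧ (Lf p.1 p.2 j ∧ p.2 < p.1 j ∧ NewL x p.1 p.2 j ∧ (p.2 = 0 → ¬ wa (x j))))
  let Rj : Fin m → (Fin m → ℕ) × ℕ → ℝ := fun j p => I (Pr x p.1 p.2 ∧ ¬ Bd p.1 p.2 ∧
    Kc x wa p.1 p.2 ∧ (Rt p.1 p.2 j ∧ p.2 ≤ p.1 j ∧ NewR x p.1 p.2 j ∧ (p.2 = 0 → ¬ wa (x j))))
  let Cj : Fin m → (Fin m → ℕ) × ℕ → ℝ := fun j p => I (Pr x p.1 p.2 ∧ Bd p.1 p.2 ∧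
    Kc x wa p.1 p.2) * I (Lf p.1 p.2 j ∧ p.1 j = p.2 + 1 ∧ NewL x p.1 p.2 j ∧
      (p.2 = 0 → ¬ wa (x j)))
  have bP : Bdd Pf := bdd_I _
  have bZ : ∀ c, Bdd (Zf c) := fun c => bdd_I _
  have bR : Bdd Rf := bdd_I _
  have bE : Bdd Ef := bdd_I _
  have bL : ∀ j, Bdd (Lj j) := fun j => bdd_I _
  have bRj : ∀ j, Bdd (Rj j) := fun j => bdd_I _
  have bC : ∀ j, Bdd (Cj j) := fun j => bdd_mul (bdd_I _) (bdd_I _)
  -- pointwise identity times P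
  have hW : ∀ p, (Fintype.card C : ℝ) * Pf p = ((((∑ c, Zf c p) + Pf p) + Rf p) + nw * Ef p
      + ∑ j, Lj j p) + ∑ j, Rj j p := by
    rintro ⟨g, β⟩
    by_cases hp : Pr x g β ∧ ¬ Bd g β ∧ Kc x wa g β
    · have h := ptw hCNT hINI x wa g β hp.1 hp.2.1 hp.2.2
      have a1 : Pf (g, β) = 1 := I_true hp
      have a2 : ∀ c, Zf c (g, β) = I (Al x g β c ∧ (β = 0 → ¬ wa c)) := fun c =>
        I_congr ⟨fun h => h.2.2.2, fun h => ⟨hp.1, hp.2.1, hp.2.2, h⟩⟩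
      have a3 : Rf (g, β) = I (∃ l, g l < β) :=
        I_congr ⟨fun h => h.2.2.2, fun h => ⟨hp.1, hp.2.1, hp.2.2, h⟩⟩
      have a4 : Ef (g, β) = I (β = 0) :=
        I_congr ⟨fun h => h.2.2.2, fun h => ⟨hp.1, hp.2.1, hp.2.2, h⟩⟩
      have a5 : ∀ j, Lj j (g, β) =
          I (Lf g β j ∧ β < g j ∧ NewL x g β j ∧ (β = 0 → ¬ wa (x j))) := fun j =>
        I_congr ⟨fun h => h.2.2.2, fun h => ⟨hp.1, hp.2.1, hp.2.2, h⟩⟩
      have a6 : ∀ j, Rj j (g, β) =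
          I (Rt g β j ∧ β ≤ g j ∧ NewR x g β j ∧ (β = 0 → ¬ wa (x j))) := fun j =>
        I_congr ⟨fun h => h.2.2.2, fun h => ⟨hp.1, hp.2.1, hp.2.2, h⟩⟩
      rw [a1, a3, a4, Finset.sum_congr rfl fun c _ => a2 c, Finset.sum_congr rfl fun j _ => a5 j,
        Finset.sum_congr rfl fun j _ => a6 j, mul_one]
      exact h
    · have a1 : Pf (g, β) = 0 := I_false hp
      have a2 : ∀ c, Zf c (g, β) = 0 := fun c => I_false fun h => hp ⟨h.1, h.2.1, h.2.2.1⟩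
      have a3 : Rf (g, β) = 0 := I_false fun h => hp ⟨h.1, h.2.1, h.2.2.1⟩
      have a4 : Ef (g, β) = 0 := I_false fun h => hp ⟨h.1, h.2.1, h.2.2.1⟩
      have a5 : ∀ j, Lj j (g, β) = 0 := fun c => I_false fun h => hp ⟨h.1, h.2.1, h.2.2.1⟩
      have a6 : ∀ j, Rj j (g, β) = 0 := fun c => I_false fun h => hp ⟨h.1, h.2.1, h.2.2.1⟩
      rw [a1, a3, a4, Finset.sum_congr rfl fun c _ => a2 c, Finset.sum_congr rfl fun j _ => a5 j,
        Finset.sum_congr rfl fun j _ => a6 j]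
      simp
  have hS : (Fintype.card C : ℝ) * SS t Pf = ((((∑ c, SS t (Zf c)) + SS t Pf) + SS t Rf)
      + nw * SS t Ef + ∑ j, SS t (Lj j)) + ∑ j, SS t (Rj j) := by
    have b1 := bdd_sum Finset.univ bZ
    have b2 := bdd_add b1 bP
    have b3 := bdd_add b2 bR
    have b4 := bdd_add b3 (bdd_cmul nw bE)
    have b5 := bdd_add b4 (bdd_sum Finset.univ bL)
    rw [← SS_mul, SS_congr hW, SS_add hs b5 (bdd_sum Finset.univ bRj),
      SS_add hs b4 (bdd_sum Finset.univ bL), SS_add hs b3 (bdd_cmul nw bE), SS_add hs b2 bR,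
      SS_add hs b1 bP, SS_sum hs _ bZ, SS_mul, SS_sum hs _ bL, SS_sum hs _ bRj]
  -- A = Ar + Are
  have hA : SS t Pf = SS t Rf + SS t Ef := by
    rw [← SS_add hs bR bE]
    refine SS_congr ?_
    rintro ⟨g, β⟩
    by_cases hp : Pr x g β ∧ ¬ Bd g β ∧ Kc x wa g β
    · have a1 : Pf (g, β) = 1 := I_true hp
      by_cases hb : β = 0
      · have a3 : Rf (g, β) = 0 := I_false fun h => by
          obtain ⟨l, hl⟩ := h.2.2.2
          simp only at hl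
          omega
        have a4 : Ef (g, β) = 1 := I_true ⟨hp.1, hp.2.1, hp.2.2, hb⟩
        rw [a1, a3, a4]; norm_num
      · have a3 : Rf (g, β) = 1 := by
          obtain ⟨l, hl⟩ := hp.2.2.1.resolve_left hb
          exact I_true ⟨hp.1, hp.2.1, hp.2.2, l, by simp only; omega⟩
        have a4 : Ef (g, β) = 0 := I_false fun h => hb h.2.2.2
        rw [a1, a3, a4]; norm_num
    · have a1 : Pf (g, β) = 0 := I_false hp
      have a3 : Rf (g, β) = 0 := I_false fun h => hp ⟨h.1, h.2.1, h.2.2.1⟩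
      have a4 : Ef (g, β) = 0 := I_false fun h => hp ⟨h.1, h.2.1, h.2.2.1⟩
      rw [a1, a3, a4]; norm_num
  -- left swaps
  have hLs : ∑ j, SS t (Lj j) + ∑ j, SS t (Cj j) = t * SS t Pf := by
    have h1 : ∀ j, SS t (Lj j) + SS t (Cj j) =
        t * SS t (fun p => I (p.1 j ≤ p.2) * I (Pr x p.1 p.2 ∧ Kc x wa p.1 p.2 ∧ Lf p.1 p.2 j)) := by
      intro j
      rw [← (hTS m t j (fun p => I (Pr x p.1 p.2 ∧ Kc x wa p.1 p.2 ∧ Lf p.1 p.2 j)) ht0 ht1).1,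
        ← SS_add hs (bL j) (bC j)]
      refine SS_congr ?_
      rintro ⟨g, β⟩
      obtain ⟨i1, i2, i3, i4⟩ := hINV m C x wa g β j
      show I _ + I _ * I _ = I (β < g j) * I (Pr x (update g j β) (g j - 1) ∧
        Kc x wa (update g j β) (g j - 1) ∧ Lf (update g j β) (g j - 1) j)
      by_cases hj : β < g j
      · by_cases hLj : Lf g β j
        · rw [I_true hj, one_mul, I_congr (and_congr (hLL m C x g β j hLj hj)
            (and_congr (i1 hj) (i3 hj)))]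
          by_cases hB : Bd g β
          · rw [I_false (p := Pr x g β ∧ ¬ Bd g β ∧ Kc x wa g β ∧ (Lf g β j ∧ β < g j ∧
              NewL x g β j ∧ (β = 0 → ¬ wa (x j)))) (fun h => h.2.1 hB), zero_add, ← I_and]
            exact I_congr ⟨fun h => ⟨⟨h.1.1, h.2.2.2.1, Or.inr h.2.2.1⟩, ⟨h.1.2.2, h.2.2.2.2⟩, hLj⟩,
              fun h => ⟨⟨h.1.1, hB, h.2.1.1⟩, hLj, h.1.2.2.resolve_left (fun hn => hn hB),
                h.1.2.1, h.2.1.2⟩⟩
          · rw [I_false (p := Pr x g β ∧ Bd g β ∧ Kc x wa g β) (fun h => hB h.2.1), zero_mul,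
              add_zero]
            exact I_congr ⟨fun h => ⟨⟨h.1, h.2.2.2.2.2.1, Or.inl hB⟩, ⟨h.2.2.1, h.2.2.2.2.2.2⟩, hLj⟩,
              fun h => ⟨h.1.1, hB, h.2.1.1, hLj, hj, h.1.2.1, h.2.1.2⟩⟩
        · rw [I_false (p := Pr x (update g j β) (g j - 1) ∧
            Kc x wa (update g j β) (g j - 1) ∧ Lf (update g j β) (g j - 1) j)
            (fun h => hLj ((i3 hj).1 h.2.2)), mul_zero,
            I_false (p := Lf g β j ∧ g j = β + 1 ∧ NewL x g β j ∧ (β = 0 → ¬ wa (x j)))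
              (fun h => hLj h.1), mul_zero, add_zero]
          exact I_false fun h => hLj h.2.2.2.1
      · rw [I_false hj, zero_mul,
            I_false (p := Lf g β j ∧ g j = β + 1 ∧ NewL x g β j ∧ (β = 0 → ¬ wa (x j)))
              (fun h => hj (by omega)), mul_zero, add_zero]
        exact I_false fun h => hj h.2.2.2.2.1
    rw [← Finset.sum_add_distrib, Finset.sum_congr rfl fun j _ => h1 j, ← Finset.mul_sum,
      ← SS_sum hs _ (fun j => bdd_mul (bdd_I _) (bdd_I _))]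
    congr 1
    refine SS_congr ?_
    rintro ⟨g, β⟩
    show ∑ j, I (g j ≤ β) * I (Pr x g β ∧ Kc x wa g β ∧ Lf g β j) =
      I (Pr x g β ∧ ¬ Bd g β ∧ Kc x wa g β)
    obtain ⟨h1, h2, h3, h4⟩ := hINI m C x g β
    have : ∀ j, I (g j ≤ β) * I (Pr x g β ∧ Kc x wa g β ∧ Lf g β j) =
        I (Pr x g β ∧ Kc x wa g β) * I (Lf g β j ∧ g j ≤ β) := by
      intro j
      rw [← I_and, ← I_and]
      exact I_congr ⟨fun h => ⟨⟨h.2.1, h.2.2.1⟩, h.2.2.2, h.1⟩,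
        fun h => ⟨h.2.2, h.1.1, h.1.2, h.2.1⟩⟩
    rw [Finset.sum_congr rfl fun j _ => this j, ← Finset.mul_sum, h1, ← I_and]
    exact I_congr ⟨fun h => ⟨h.1.1, h.2, h.1.2⟩, fun h => ⟨⟨h.1, h.2.2⟩, h.2.1⟩⟩
  -- right swaps
  have hRs : t * ∑ j, SS t (Rj j) = SS t Rf := by
    have h1 : ∀ j, t * SS t (Rj j) =
        SS t (fun p => I (p.1 j < p.2) * I (Pr x p.1 p.2 ∧ Kc x wa p.1 p.2 ∧ Rt p.1 p.2 j)) := by
      intro j
      rw [← (hTS m t j (fun p => I (Pr x p.1 p.2 ∧ Kc x wa p.1 p.2 ∧ Rt p.1 p.2 j)) ht0 ht1).2]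
      congr 1
      refine SS_congr ?_
      rintro ⟨g, β⟩
      obtain ⟨i1, i2, i3, i4⟩ := hINV m C x wa g β j
      show I _ = I (β ≤ g j) * I (Pr x (update g j β) (g j + 1) ∧
        Kc x wa (update g j β) (g j + 1) ∧ Rt (update g j β) (g j + 1) j)
      by_cases hj : β ≤ g j
      · by_cases hLj : Rt g β j
        · rw [I_true hj, one_mul, I_congr (and_congr (hLR m C x g β j hLj hj)
            (and_congr (i2 hj) (i4 hj)))]
          exact I_congr ⟨fun h => ⟨⟨h.1, h.2.2.2.2.2.1, h.2.1⟩, ⟨h.2.2.1, h.2.2.2.2.2.2⟩, hLj⟩,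
            fun h => ⟨h.1.1, h.1.2.2, h.2.1.1, hLj, hj, h.1.2.1, h.2.1.2⟩⟩
        · rw [I_false (p := Pr x (update g j β) (g j + 1) ∧
            Kc x wa (update g j β) (g j + 1) ∧ Rt (update g j β) (g j + 1) j)
            (fun h => hLj ((i4 hj).1 h.2.2)), mul_zero]
          exact I_false fun h => hLj h.2.2.2.1
      · rw [I_false hj, zero_mul]
        exact I_false fun h => hj h.2.2.2.2.1
    rw [Finset.mul_sum, Finset.sum_congr rfl fun j _ => h1 j,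
      ← SS_sum hs _ (fun j => bdd_mul (bdd_I _) (bdd_I _))]
    refine SS_congr ?_
    rintro ⟨g, β⟩
    show ∑ j, I (g j < β) * I (Pr x g β ∧ Kc x wa g β ∧ Rt g β j) =
      I (Pr x g β ∧ ¬ Bd g β ∧ Kc x wa g β ∧ ∃ l, g l < β)
    obtain ⟨h1, h2, h3, h4⟩ := hINI m C x g β
    have : ∀ j, I (g j < β) * I (Pr x g β ∧ Kc x wa g β ∧ Rt g β j) =
        I (Pr x g β ∧ Kc x wa g β) * I (Rt g β j ∧ g j < β) := by
      intro j
      rw [← I_and, ← I_and]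
      exact I_congr ⟨fun h => ⟨⟨h.2.1, h.2.2.1⟩, h.2.2.2, h.1⟩,
        fun h => ⟨h.2.2, h.1.1, h.1.2, h.2.1⟩⟩
    rw [Finset.sum_congr rfl fun j _ => this j, ← Finset.mul_sum, h2, ← I_and]
    apply I_congr
    constructor
    · rintro ⟨⟨ha, hb⟩, l, hl⟩
      exact ⟨ha, fun hB => absurd (hB l) (by omega), hb, l, hl⟩
    · rintro ⟨ha, _, hb, hl⟩
      exact ⟨⟨ha, hb⟩, hl⟩
  -- assemble
  have hCo : SS t (fun p : (Fin m → ℕ) × ℕ => I (Pr x p.1 p.2 ∧ Bd p.1 p.2 ∧ Kc x wa p.1 p.2) *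
          ∑ j, I (Lf p.1 p.2 j ∧ p.1 j = p.2 + 1 ∧ NewL x p.1 p.2 j ∧ (p.2 = 0 → ¬ wa (x j))))
      = ∑ j, SS t (Cj j) := by
    rw [← SS_sum hs _ bC]
    refine SS_congr fun p => ?_
    rw [Finset.mul_sum]
  rw [hCo]
  show ∑ c, SS t (Zf c) = (1 + 1 / t - nw) * SS t Ef + ∑ j, SS t (Cj j)
  have hRR : ∑ j, SS t (Rj j) = SS t Rf / t := by
    rw [← hRs]; field_simp
  rw [hq, hRR] at hS
  have hLs' : ∑ j, SS t (Lj j) = t * SS t Pf - ∑ j, SS t (Cj j) := by linarith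
  rw [hLs', hA] at hS
  have : SS t Rf / t = 1 / t * SS t Rf := by ring
  rw [this] at hS
  linear_combination -hS

end Pool.Agent.W309.CY
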